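import Mathlib

namespace Pool.Agent.Results.MP_b3c6e2_an.Q1

open Filter Topology Set

variable {𝕜 X : Type} [RCLike 𝕜] [NormedAddCommGroup X] [NormedSpace 𝕜 X]

/-- `Re ξ(x)` as an extended real. -/
noncomputable def ev (ξ : StrongDual 𝕜 X) (x : X) : EReal := (RCLike.re (ξ x) : ℝ)

/-- The (I)-envelope, by its description through sequences in the unit ball. -/
def Ienv (A : Set (StrongDual 𝕜 X)) : Set (StrongDual 𝕜 X) :=
  {η | ∀ x : ℕ → X, (∀ n, ‖x n‖ ≤ 1) →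
    ⨅ n, ev η (x n) ≤ ⨆ ξ ∈ A, limsup (fun n => ev ξ (x n)) atTop}

lemma not_mem {A : Set (StrongDual 𝕜 X)} {η} (h : η ∉ Ienv A) : ∃ (x : ℕ → X) (a d : ℝ), 0 < d ∧
    (∀ n, ‖x n‖ ≤ 1 ∧ a + d ≤ RCLike.re (η (x n))) ∧
    ∀ ξ ∈ A, ∀ᶠ n in atTop, RCLike.re (ξ (x n)) ≤ a := by
  simp only [Ienv, mem_setOf_eq, not_forall, not_le] at h
  obtain ⟨x, hx, h⟩ := h
  obtain ⟨a, h1, h2⟩ := EReal.lt_iff_exists_real_btwn.1 h
  obtain ⟨b, h3, h4⟩ := EReal.lt_iff_exists_real_btwn.1 h2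
  refine ⟨x, a, b - a, sub_pos.2 (EReal.coe_lt_coe_iff.1 h3), fun n => ⟨hx n, ?_⟩, fun ξ hξ => ?_⟩
  · have := EReal.coe_lt_coe_iff.1 (h4.trans_le (iInf_le _ n))
    linarith
  · exact (eventually_lt_of_limsup_lt ((le_iSup₂_of_le ξ hξ le_rfl).trans_lt h1)).mono
      fun n h => (EReal.coe_lt_coe_iff.1 h).le

/-- The abstract core: `u n`, `v n` are affine along segments and uniformly Lipschitz there. -/
lemma core {T : Type} (A B : Set T) (u v : ℕ → T → ℝ) (d : ℝ) (d0 : 0 < d)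
    (hu : ∀ ξ ∈ A, ∀ᶠ n in atTop, u n ξ ≤ 0) (hv : ∀ ξ ∈ B, ∀ᶠ n in atTop, v n ξ ≤ 0)
    (hb : ∀ ξ, ∃ M, ∀ n, |u n ξ| ≤ M ∧ |v n ξ| ≤ M)
    (seg : ∀ ξ ∈ A, ∀ ζ ∈ B, ∃ γ : ℝ → T, ∀ t ∈ Icc (0 : ℝ) 1, γ t ∈ A ∪ B ∧ (t = 0 → γ t ∈ A) ∧
      (t = 1 → γ t ∈ B) ∧ ∀ n, u n (γ t) = (1 - t) * u n ξ + t * u n ζ ∧
        v n (γ t) = (1 - t) * v n ξ + t * v n ζ) :
    ∃ l ∈ Icc (0 : ℝ) 1, ∃ φ : ℕ → ℕ, ∀ ξ ∈ A ∪ B, ∀ᶠ k in atTop,
      l * u (φ k) ξ + (1 - l) * v (φ k) ξ < d := by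
  by_contra! H
  let P (S : Set T) (F : Filter ℕ) (l c : ℝ) := ∃ ξ ∈ S, ∀ᶠ n in F, c ≤ l * u n ξ + (1 - l) * v n ξ
  let G (F : Filter ℕ) := F.NeBot ∧ F.IsCountablyGenerated ∧ F ≤ atTop
  have step (F) (hF : G F) (l) (hl : l ∈ Icc (0 : ℝ) 1) :
      ∃ F', G F' ∧ F' ≤ F ∧ (P A F' l d ∨ P B F' l d) := by
    obtain ⟨a, b, c⟩ := hF
    obtain ⟨φ, hφ⟩ := exists_seq_tendsto F
    obtain ⟨ξ, hξ, h⟩ := H l hl φ
    have h' : ∃ᶠ n in F, d ≤ l * u n ξ + (1 - l) * v n ξ := hφ.frequently (by simpa using h)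
    refine ⟨F ⊓ 𝓟 {n | d ≤ l * u n ξ + (1 - l) * v n ξ}, ⟨frequently_iff_neBot.1 h', inferInstance,
      inf_le_left.trans c⟩, inf_le_left, hξ.imp (fun h => ⟨ξ, h, ?_⟩) fun h => ⟨ξ, h, ?_⟩⟩ <;>
    exact mem_inf_of_right (mem_principal_self _)
  have mono {S F F' l c} (h : F' ≤ F) : P S F l c → P S F' l c := fun ⟨ξ, a, b⟩ => ⟨ξ, a, h b⟩
  have near {S F l} : P S F l d → ∃ e > 0, ∀ m, |m - l| < e → P S F m (d / 2) := by
    rintro ⟨ξ, a, b⟩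
    obtain ⟨M, hM⟩ := hb ξ
    have M0 : 0 ≤ M := (abs_nonneg _).trans (hM 0).1
    refine ⟨d / (4 * (M + 1)), by positivity, fun m hm => ⟨ξ, a, b.mono fun n hn => ?_⟩⟩
    rw [lt_div_iff₀ (by positivity)] at hm
    have h1 : |u n ξ - v n ξ| ≤ 2 * (M + 1) := (abs_sub _ _).trans (by linarith [hM n])
    have := mul_le_mul_of_nonneg_left h1 (abs_nonneg (m - l))
    rw [← abs_mul] at this
    nlinarith [neg_abs_le ((m - l) * (u n ξ - v n ξ))]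
  have lt {F l m} (hF : G F) (hl : l ∈ Icc (0 : ℝ) 1) (hm : m ∈ Icc (0 : ℝ) 1) :
      P A F l (d / 2) → P B F m (d / 2) → l < m := by
    rintro ⟨ξ, a, b⟩ ⟨ζ, a', b'⟩
    by_contra! ml
    have := hF.1
    obtain ⟨γ, hγ⟩ := seg ξ a ζ a'
    obtain ⟨M, hM⟩ := hb ξ
    obtain ⟨M', hM'⟩ := hb ζ
    have M0 : 0 ≤ M := (abs_nonneg _).trans (hM 0).1
    have M1 : 0 ≤ M' := (abs_nonneg _).trans (hM' 0).1
    obtain ⟨t, -, t1, t2⟩ := isPreconnected_closed_iff.1 (isPreconnected_Icc (a := (0 : ℝ)) (b := 1))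
      (closure {t ∈ Icc 0 1 | γ t ∈ A}) (closure {t ∈ Icc 0 1 | γ t ∈ B}) isClosed_closure
      isClosed_closure (fun t ht => (hγ t ht).1.imp (fun h => subset_closure ⟨ht, h⟩)
        fun h => subset_closure ⟨ht, h⟩)
      ⟨0, by simp, subset_closure ⟨by simp, (hγ 0 (by simp)).2.1 rfl⟩⟩
      ⟨1, by simp, subset_closure ⟨by simp, (hγ 1 (by simp)).2.2.1 rfl⟩⟩
    have e0 : 0 < d / (8 * (M + M' + 1)) := by positivity
    obtain ⟨r, ⟨r1, r2⟩, r3⟩ := Metric.mem_closure_iff.1 t1 _ e0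
    obtain ⟨s, ⟨s1, s2⟩, s3⟩ := Metric.mem_closure_iff.1 t2 _ e0
    have rs : |r - s| * (M + M' + 1) < d / 4 := by
      have := dist_triangle_left r s t
      rw [lt_div_iff₀ (by positivity)] at r3 s3
      rw [Real.dist_eq r s] at this
      nlinarith
    obtain ⟨n, ⟨h1, h2⟩, ⟨h3, h4⟩, h5⟩ := ((b.and b').and ((((hu _ r2).and
      (hv _ s2)).and (hu _ a)).filter_mono hF.2.2)).exists
    rw [((hγ r r1).2.2.2 n).1] at h3
    rw [((hγ s s1).2.2.2 n).2] at h4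
    have k1 : d / 2 ≤ m * u n ξ + (1 - m) * v n ξ := by
      have : u n ξ ≤ v n ξ := by nlinarith [hl.1, hl.2]
      nlinarith
    have k2 : |v n ζ - v n ξ| ≤ M + M' + 1 := (abs_sub _ _).trans (by linarith [hM n, hM' n])
    have k3 := mul_le_mul_of_nonneg_left k2 (abs_nonneg (r - s))
    rw [← abs_mul] at k3
    have k4 : (1 - r) * v n ξ + r * v n ζ < d / 4 := by
      nlinarith [le_abs_self ((r - s) * (v n ζ - v n ξ))]
    nlinarith [mul_le_mul_of_nonneg_left k1 (sub_nonneg.2 r1.2), mul_le_mul_of_nonneg_left h2 r1.1,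
      mul_nonneg hm.1 (neg_nonneg.2 h3), mul_le_mul_of_nonneg_left k4.le (sub_nonneg.2 hm.2), hm.1]
  have n1 {F} (hF : G F) : ¬ P A F 1 (d / 2) := fun ⟨ξ, a, b⟩ => by
    have := hF.1
    obtain ⟨n, x, y⟩ := (b.and (hF.2.2 (hu ξ a))).exists
    simp at x y; linarith
  have n0 {F} (hF : G F) : ¬ P B F 0 (d / 2) := fun ⟨ξ, a, b⟩ => by
    have := hF.1
    obtain ⟨n, x, y⟩ := (b.and (hF.2.2 (hv ξ a))).exists
    simp at x y; linarith
  choose! nx h1 h2 h3 using step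
  obtain ⟨q, hq⟩ := exists_surjective_nat ℚ
  let r (k : ℕ) : ℝ := projIcc (0 : ℝ) 1 zero_le_one (q k)
  have rI (k) : r k ∈ Icc (0 : ℝ) 1 := Subtype.prop _
  let Fs : ℕ → Filter ℕ := fun k => Nat.rec atTop (fun k F => nx F (r k)) k
  have gs (k) : G (Fs k) := by
    induction k with
    | zero => exact ⟨atTop_neBot, inferInstanceAs (IsCountablyGenerated atTop), le_rfl⟩
    | succ k ih => exact h1 _ ih _ (rI k)
  have an : Antitone Fs := antitone_nat_of_succ_le fun k => h2 _ (gs k) _ (rI k)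
  have gF : G (⨅ k, Fs k) := by
    have := fun k => (gs k).2.1
    exact ⟨iInf_neBot_of_directed' an.directed_ge fun k => (gs k).1, @iInf.isCountablyGenerated _ _ _ Fs this,
      (iInf_le _ 0).trans le_rfl⟩
  set F := ⨅ k, Fs k
  have hf {S F l} (h : P S F l d) : P S F l (d / 2) := by
    obtain ⟨e, e0, h⟩ := near h
    exact h l (by simpa)
  have rat (a b : ℝ) (h0 : 0 ≤ a) (ab : a < b) (h1 : b ≤ 1) :
      ∃ c, a < c ∧ c < b ∧ (P A F c (d / 2) ∨ P B F c (d / 2)) := by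
    obtain ⟨c, x, y⟩ := exists_rat_btwn ab
    obtain ⟨k, rfl⟩ := hq c
    have e : r k = q k := congrArg Subtype.val (projIcc_of_mem _ ⟨by linarith, by linarith⟩)
    exact ⟨_, x, y, e ▸ (h3 _ (gs k) _ (rI k)).imp (fun h => hf (mono (iInf_le Fs (k + 1)) h))
      fun h => hf (mono (iInf_le Fs (k + 1)) h)⟩
  let Z := insert 0 {c ∈ Icc (0 : ℝ) 1 | P A F c (d / 2)}
  have bZ : ∀ c ∈ Z, c ≤ 1 := by
    rintro c (rfl | h)
    exacts [zero_le_one, h.1.2]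
  have l0 : 0 ≤ sSup Z := le_csSup ⟨1, bZ⟩ (mem_insert _ _)
  have l1 : sSup Z ≤ 1 := csSup_le ⟨0, mem_insert _ _⟩ bZ
  set l := sSup Z with hl
  have g' := h1 F gF l ⟨l0, l1⟩
  have le := h2 F gF l ⟨l0, l1⟩
  rcases h3 F gF l ⟨l0, l1⟩ with h | h
  · have : l < 1 := l1.lt_of_ne fun e => n1 g' (e ▸ hf h)
    obtain ⟨e, e0, h⟩ := near h
    have hm : l < min 1 (l + e / 2) := lt_min this (by linarith)
    obtain ⟨c, x, y, z | z⟩ := rat l _ l0 hm (min_le_left _ _)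
    · exact x.not_ge (le_csSup ⟨1, bZ⟩ (.inr ⟨⟨by linarith, y.le.trans (min_le_left _ _)⟩, z⟩))
    · refine y.not_gt (lt g' ⟨by linarith, min_le_left _ _⟩ ⟨by linarith, y.le.trans (min_le_left _ _)⟩
        (h _ ?_) (mono le z))
      rw [abs_lt]; constructor <;> linarith [min_le_right 1 (l + e / 2)]
  · have : 0 < l := l0.lt_of_ne fun e => n0 g' (by have := hf h; rwa [← e] at this ⊢)
    obtain ⟨e, e0, h⟩ := near h
    have hm : max 0 (l - e / 2) < l := max_lt this (by linarith)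
    obtain ⟨c, rfl | z, x⟩ := exists_lt_of_lt_csSup ⟨0, mem_insert _ _⟩ (hl ▸ hm)
    · exact x.not_ge (le_max_left _ _)
    · refine x.not_gt (lt g' z.1 ⟨le_max_left _ _, by linarith⟩ (mono le z.2) (h _ ?_))
      rw [abs_lt]; constructor <;> linarith [le_max_right 0 (l - e / 2)]

theorem result (𝕜 X : Type) [RCLike 𝕜] [NormedAddCommGroup X] [NormedSpace 𝕜 X]
    (A B : Set (StrongDual 𝕜 X)) (h : Convex ℝ (A ∪ B)) :
    Ienv (A ∪ B) = Ienv A ∪ Ienv B := by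
  refine Subset.antisymm (fun η hη => ?_) (union_subset
    (fun η hη x hx => (hη x hx).trans (biSup_mono fun _ h => .inl h))
    fun η hη x hx => (hη x hx).trans (biSup_mono fun _ h => .inr h))
  by_contra H
  obtain ⟨x, a, d, d0, hx, hA⟩ := not_mem (fun h => H (.inl h))
  obtain ⟨y, b, e, e0, hy, hB⟩ := not_mem (fun h => H (.inr h))
  have bd (ξ : StrongDual 𝕜 X) {z : X} (hz : ‖z‖ ≤ 1) (c : ℝ) : |RCLike.re (ξ z) - c| ≤ ‖ξ‖ + |c| :=
    (abs_sub _ _).trans (add_le_add_left ((RCLike.abs_re_le_norm _).trans (ξ.unit_le_opNorm z hz)) _)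
  have m0 : 0 < min d e / 2 := by positivity
  obtain ⟨l, hl, φ, hφ⟩ := core A B (fun n ξ => RCLike.re (ξ (x n)) - a)
    (fun n ξ => RCLike.re (ξ (y n)) - b) _ m0 (fun ξ h => by simpa using hA ξ h)
    (fun ξ h => by simpa using hB ξ h)
    (fun ξ => ⟨‖ξ‖ + |a| + |b|, fun n => ⟨by linarith [bd ξ (hx n).1 a, abs_nonneg b],
      by linarith [bd ξ (hy n).1 b, abs_nonneg a]⟩⟩)
    fun ξ hξ ζ hζ => ⟨fun t => (1 - t) • ξ + t • ζ, fun t ht =>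
      ⟨h (.inl hξ) (.inr hζ) (sub_nonneg.2 ht.2) ht.1 (by ring), by
        rintro rfl; convert hξ using 1; ext; simp, by
        rintro rfl; convert hζ using 1; ext; simp, fun n => by
        constructor <;> simp [RCLike.smul_re] <;> ring⟩⟩
  let z k := (l : 𝕜) • x (φ k) + ((1 - l : ℝ) : 𝕜) • y (φ k)
  have zv (ξ : StrongDual 𝕜 X) (k) : RCLike.re (ξ (z k)) =
      l * RCLike.re (ξ (x (φ k))) + (1 - l) * RCLike.re (ξ (y (φ k))) := by simp [z]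
  have := hη z fun k => (norm_add_le _ _).trans (by
    rw [norm_smul, norm_smul, RCLike.norm_ofReal, RCLike.norm_ofReal, abs_of_nonneg hl.1,
      abs_of_nonneg (sub_nonneg.2 hl.2)]
    nlinarith [(hx (φ k)).1, (hy (φ k)).1, hl.1, hl.2])
  have lo : ((l * a + (1 - l) * b + min d e : ℝ) : EReal) ≤ ⨅ n, ev η (z n) := le_iInf fun k => by
    rw [ev, EReal.coe_le_coe_iff, zv]
    nlinarith [(hx (φ k)).2, (hy (φ k)).2, hl.1, hl.2, min_le_left d e, min_le_right d e]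
  have hi : ⨆ ξ ∈ A ∪ B, limsup (fun n => ev ξ (z n)) atTop ≤
      ((l * a + (1 - l) * b + min d e / 2 : ℝ) : EReal) := iSup₂_le fun ξ hξ =>
    limsup_le_of_le (h := (hφ ξ hξ).mono fun k hk => by
      rw [ev, EReal.coe_le_coe_iff, zv]; linarith)
  have := EReal.coe_le_coe_iff.1 (lo.trans (this.trans hi))
  linarith

end Pool.Agent.Results.MP_b3c6e2_an.Q1
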